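import Pool.Agent.N298.PGA.Low2
import Pool.Agent.N298.PGA.Upper2
import Pool.Agent.N298.PGA.Num

/-!
# The exact order of decay of the error of the Pure Greedy Algorithm

`γ(m) ≍ m^{-α}` with `α = (1-v)/(2(1+v)) = 0.18277…`, where `v` is the unique root in `(0,1)` of
`v^v = (1-v²)^(1+v)`. The definitions (`IsDictionary`, `A1`, `IsPGA`, `errSet`, `gam`) are in
`Pool/Agent/N298/PGA/Defs.lean`.
-/

set_option autoImplicit false

namespace Pool.Agent.Results.MP_19b6b2_an.ExactOrder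

open N298.PGA

universe u

/-- The exact order of `γ(m)`, in every infinite-dimensional real Hilbert space, with constants
which do not depend on the space; moreover one dictionary, one element of `A_1` and one realization
of the algorithm attain the lower bound for all `m`. -/
theorem result :
    (∃! v : ℝ, v ∈ Set.Ioo (0:ℝ) 1 ∧ v ^ v = (1 - v ^ 2) ^ (1 + v)) ∧
    ∀ v : ℝ, v ∈ Set.Ioo (0:ℝ) 1 → v ^ v = (1 - v ^ 2) ^ (1 + v) →
      (18275 / 100000 : ℝ) < (1 - v) / (2 * (1 + v)) ∧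
      (1 - v) / (2 * (1 + v)) < (18280 / 100000 : ℝ) ∧
      ∃ c C : ℝ, 0 < c ∧ c ≤ C ∧
        ∀ (H : Type u) [NormedAddCommGroup H] [InnerProductSpace ℝ H] [CompleteSpace H],
          ¬ FiniteDimensional ℝ H →
          (∀ m : ℕ, 1 ≤ m → BddAbove (errSet H m) ∧
            c * (m : ℝ) ^ (-((1 - v) / (2 * (1 + v)))) ≤ gam H m ∧
            gam H m ≤ C * (m : ℝ) ^ (-((1 - v) / (2 * (1 + v))))) ∧
          ∃ (D : Set H) (f : H) (φ G : ℕ → H), IsDictionary D ∧ f ∈ A1 D ∧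
            (∀ m, IsPGA D f m φ G) ∧
            ∀ m : ℕ, 1 ≤ m → c * (m : ℝ) ^ (-((1 - v) / (2 * (1 + v)))) ≤ ‖f - G m‖ := by
  constructor
  · obtain ⟨v, hv⟩ := exists_root
    refine ⟨v, ⟨⟨hv.pos, hv.lt_one⟩, hv.eq⟩, ?_⟩
    rintro w ⟨⟨h0, h1⟩, h2⟩
    exact root_unique ⟨h0, h1, h2⟩ hv
  · intro v hv01 hveq
    have hv : IsRoot v := ⟨hv01.1, hv01.2, hveq⟩
    have hlo := hv.lo2
    have hhi := hv.hi2
    refine ⟨?_, ?_, ?_⟩
    · rw [div_lt_div_iff₀ (by norm_num) (by linarith)]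
      linarith
    · rw [div_lt_div_iff₀ (by linarith) (by norm_num)]
      linarith
    · obtain ⟨c, hc, hlow⟩ := lower.{u} hv
      obtain ⟨C, hC, hup⟩ := upper.{u} hv
      refine ⟨c, max c C, hc, le_max_left _ _, ?_⟩
      intro H _ _ _ hH
      obtain ⟨D, f, φ, G, h1, h2, h3, h4⟩ := hlow H hH
      refine ⟨?_, D, f, φ, G, h1, h2, h3, h4⟩
      intro m hm
      have hub : ∀ e ∈ errSet H m,
          e ≤ max c C * (m : ℝ) ^ (-((1 - v) / (2 * (1 + v)))) := by
        rintro e ⟨D', f', φ', G', k1, k2, k3, rfl⟩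
        calc _ ≤ C * (m : ℝ) ^ (-((1 - v) / (2 * (1 + v)))) :=
              hup H D' f' m φ' G' k1 k2 k3 hm
          _ ≤ _ := mul_le_mul_of_nonneg_right (le_max_right _ _) (by positivity)
      have hbdd : BddAbove (errSet H m) := ⟨_, hub⟩
      have hmem : ‖f - G m‖ ∈ errSet H m :=
        ⟨D, f, φ, G, h1, h2, h3 m, rfl⟩
      exact ⟨hbdd, (h4 m hm).trans (le_csSup hbdd hmem), csSup_le ⟨_, hmem⟩ hub⟩

end Pool.Agent.Results.MP_19b6b2_an.ExactOrder
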